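import Mathlib

/-! The Petersen graph with weight `1` on two disjoint pentagons and `2` on the perfect matching
between them, and its multiples. (Adapted from the starting file for the frozen statement on
faithful circuit covers, which has the multiple `3`.) -/

set_option autoImplicit false

namespace Pool.Agent.Y825.GC

open scoped Classical in
/-- no edge is a bridge -/
def Bridgeless {V : Type} (G : SimpleGraph V) : Prop :=
  ∀ a b : V, G.Adj a b → (G \ SimpleGraph.fromEdgeSet {s(a, b)}).Reachable a b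

open scoped Classical in
/-- the total weight at every vertex is even -/
def Eulerian {V : Type} [Fintype V] (G : SimpleGraph V) (w : Sym2 V → ℕ) : Prop :=
  ∀ v : V, Even (∑ u : V, if G.Adj v u then w s(v, u) else 0)

open scoped Classical in
/-- no edge has more than half of the weight of an edge cut containing it -/
def Admissible {V : Type} [Fintype V] (G : SimpleGraph V) (w : Sym2 V → ℕ) : Prop :=
  ∀ S : Finset V, ∀ a b : V, a ∈ S → b ∉ S → G.Adj a b →
    2 * w s(a, b) ≤ ∑ u : V, ∑ v : V, if (u ∈ S ∧ v ∉ S ∧ G.Adj u v) then w s(u, v) else 0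

open scoped Classical in
/-- there are finitely many circuits such that every edge `e` is in exactly `w e` of them -/
def FaithfulCover {V : Type} (G : SimpleGraph V) (w : Sym2 V → ℕ) : Prop :=
  ∃ (n : ℕ) (x : Fin n → V) (p : ∀ i, G.Walk (x i) (x i)), (∀ i, (p i).IsCycle) ∧
    ∀ a b : V, G.Adj a b → (∑ i : Fin n, if s(a, b) ∈ (p i).edges then 1 else 0) = w s(a, b)

/-- Table of the weights in base four. -/
def FC : ℕ := 8042584956814498335835959272520372473828113046595620044900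

def bs (u v : Fin 10) : ℕ := FC / 4 ^ (10 * u.val + v.val) % 4

lemma bs_symm : ∀ u v : Fin 10, bs u v = bs v u := by decide +kernel

lemma bs_diag : ∀ u : Fin 10, bs u u = 0 := by decide +kernel

lemma bs_val : ∀ u v : Fin 10, bs u v ≠ 0 → bs u v = 1 ∨ bs u v = 2 := by decide +kernel

/-- The Petersen graph. -/
def Gr : SimpleGraph (Fin 10) where
  Adj u v := bs u v ≠ 0
  symm := ⟨fun u v h => by rw [bs_symm v u]; exact h⟩
  loopless := ⟨fun u h => h (bs_diag u)⟩

lemma adj_iff (u v : Fin 10) : Gr.Adj u v ↔ bs u v ≠ 0 := Iff.rfl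

/-- The weight: `1` on two pentagons and `2` on the matching. -/
def wt : Sym2 (Fin 10) → ℕ := Sym2.lift ⟨bs, bs_symm⟩

lemma wt_mk (u v : Fin 10) : wt s(u, v) = bs u v := rfl

/-! ### Connectivity -/

lemma path_ex : ∀ a b : Fin 10, bs a b ≠ 0 → ∃ x y z : Fin 10, bs a x ≠ 0 ∧ x ≠ b ∧
    bs x y ≠ 0 ∧ x ≠ a ∧ y ≠ a ∧ y ≠ b ∧ bs y z ≠ 0 ∧ bs z b ≠ 0 ∧ z ≠ a ∧ z ≠ b := by
  decide +kernel

lemma no_bridge : Bridgeless Gr := by
  intro a b h
  obtain ⟨x, y, z, h1, h2, h3, h4, h5, h6, h7, h8, h9, h10⟩ := path_ex a b h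
  have key : ∀ p q : Fin 10, bs p q ≠ 0 → s(p, q) ≠ s(a, b) →
      (Gr \ SimpleGraph.fromEdgeSet {s(a, b)}).Adj p q := by
    intro p q hpq hne
    rw [SimpleGraph.sdiff_adj, SimpleGraph.fromEdgeSet_adj]
    exact ⟨hpq, fun hh => hne hh.1⟩
  have e1 := key a x h1 (by
    intro hh
    rw [Sym2.eq_iff] at hh
    rcases hh with ⟨_, h⟩ | ⟨_, h⟩
    · exact h2 h
    · exact h4 h)
  have e2 := key x y h3 (by
    intro hh
    rw [Sym2.eq_iff] at hh
    rcases hh with ⟨h, _⟩ | ⟨h, _⟩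
    · exact h4 h
    · exact h2 h)
  have e3 := key y z h7 (by
    intro hh
    rw [Sym2.eq_iff] at hh
    rcases hh with ⟨h, _⟩ | ⟨h, _⟩
    · exact h5 h
    · exact h6 h)
  have e4 := key z b h8 (by
    intro hh
    rw [Sym2.eq_iff] at hh
    rcases hh with ⟨h, _⟩ | ⟨h, _⟩
    · exact h9 h
    · exact h10 h)
  exact ((e1.reachable.trans e2.reachable).trans e3.reachable).trans e4.reachable

lemma cubic' : ∀ v : Fin 10, (Finset.univ.filter fun u => bs v u ≠ 0).card = 3 := by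
  decide +kernel

lemma cubic (v : Fin 10) : (Gr.neighborSet v).ncard = 3 := by
  rw [← cubic' v, ← Set.ncard_coe_finset]
  congr 1
  ext u
  simp [adj_iff]

/-! ### Cuts -/

def cw (f : Fin 10 → Bool) : ℕ := ∑ u, ∑ v, if (f u && !f v) = true then bs u v else 0

def ce (f : Fin 10 → Bool) : ℕ := ∑ u, ∑ v, if (f u && !f v && bs u v != 0) = true then 1 else 0

lemma cw_ge : ∀ f : Fin 10 → Bool, (4 ≤ cw f ∧ 3 ≤ ce f) ∨ (∀ i, f i = f 0) := by
  decide +kernel

lemma cw_ge' (f : Fin 10 → Bool) (a b : Fin 10) (ha : f a = true) (hb : f b = false) :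
    4 ≤ cw f ∧ 3 ≤ ce f := by
  rcases cw_ge f with h | h
  · exact h
  · exfalso
    rw [h a] at ha
    rw [h b, ha] at hb
    exact absurd hb (by simp)

/-! ### Parity at the vertices -/

/-- ends of the edges -/
def pa (k : Fin 15) : Fin 10 :=
  (![0, 0, 0, 1, 1, 2, 2, 3, 3, 4, 4, 5, 5, 6, 7] : Fin 15 → Fin 10) k

def pb (k : Fin 15) : Fin 10 :=
  (![1, 2, 3, 4, 5, 6, 7, 8, 9, 6, 8, 7, 9, 9, 8] : Fin 15 → Fin 10) k

def ek (k : Fin 15) : Sym2 (Fin 10) := s(pa k, pb k)

/-- edges of the Petersen graph at a vertex -/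
def q1 (v : Fin 10) : Fin 15 := (![0, 0, 1, 2, 3, 4, 5, 6, 7, 8] : Fin 10 → Fin 15) v
def q2 (v : Fin 10) : Fin 15 := (![1, 3, 5, 7, 9, 11, 9, 11, 10, 12] : Fin 10 → Fin 15) v
def q3 (v : Fin 10) : Fin 15 := (![2, 4, 6, 8, 10, 12, 13, 14, 14, 13] : Fin 10 → Fin 15) v

lemma inc_iff : ∀ v a b : Fin 10, ((v = a ∨ v = b) ∧ bs a b ≠ 0) ↔
    (s(a, b) = ek (q1 v) ∨ s(a, b) = ek (q2 v) ∨ s(a, b) = ek (q3 v)) := by
  decide +kernel

lemma q_ne : ∀ v : Fin 10, ek (q1 v) ≠ ek (q2 v) ∧ ek (q1 v) ≠ ek (q3 v) ∧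
    ek (q2 v) ≠ ek (q3 v) := by decide +kernel

open scoped Classical in
/-- indicator of the edge number `k` in a closed walk -/
noncomputable def ind {x : Fin 10} (p : Gr.Walk x x) (k : Fin 15) : ℕ :=
  if ek k ∈ p.edges then 1 else 0

lemma ind_le {x : Fin 10} (p : Gr.Walk x x) (k : Fin 15) : ind p k ≤ 1 := by
  unfold ind; split_ifs <;> norm_num

lemma ind_even {x : Fin 10} (p : Gr.Walk x x) (hp : p.IsCycle) (v : Fin 10) :
    Even (ind p (q1 v) + ind p (q2 v) + ind p (q3 v)) := by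
  have htr : p.IsTrail := hp.isTrail
  have h1 : Even (p.edges.countP fun e => v ∈ e) := by
    rw [htr.even_countP_edges_iff]
    intro h
    exact absurd rfl h
  have h2 : p.edges.countP (fun e => v ∈ e) = ind p (q1 v) + ind p (q2 v) + ind p (q3 v) := by
    rw [List.countP_eq_length_filter,
      ← List.toFinset_card_of_nodup (htr.edges_nodup.filter _)]
    have hset : (p.edges.filter fun e => decide (v ∈ e)).toFinset =
        (({ek (q1 v), ek (q2 v), ek (q3 v)} : Finset (Sym2 (Fin 10)))).filter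
          (fun e => e ∈ p.edges) := by
      ext e
      simp only [List.mem_toFinset, List.mem_filter, decide_eq_true_eq, Finset.mem_filter,
        Finset.mem_insert, Finset.mem_singleton]
      constructor
      · rintro ⟨he, hv⟩
        refine ⟨?_, he⟩
        have hE := p.edges_subset_edgeSet he
        induction e using Sym2.ind with
        | _ a b =>
          exact (inc_iff v a b).mp ⟨Sym2.mem_iff.mp hv, hE⟩
      · rintro ⟨he, hm⟩
        refine ⟨hm, ?_⟩
        induction e using Sym2.ind with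
        | _ a b => exact Sym2.mem_iff.mpr ((inc_iff v a b).mpr he).1
    obtain ⟨n12, n13, n23⟩ := q_ne v
    rw [hset, Finset.card_filter, Finset.sum_insert, Finset.sum_insert, Finset.sum_singleton]
    · unfold ind; rw [add_assoc]
    · simpa using n23
    · simpa using ⟨n12, n13⟩
  rw [← h2]
  exact h1

/-! ### The parity argument -/

lemma tight {m : ℕ} (p q r : Fin m → ℕ) (hr : ∀ j, r j ≤ 1)
    (he : ∀ j, Even (p j + q j + r j)) (hs : ∑ j, r j = ∑ j, p j + ∑ j, q j) :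
    ∀ j, r j = p j + q j := by
  have hle : ∀ j ∈ (Finset.univ : Finset (Fin m)), r j ≤ p j + q j := by
    intro j _
    obtain ⟨t, ht⟩ := he j
    have := hr j
    omega
  rw [← Finset.sum_add_distrib] at hs
  have := (Finset.sum_eq_sum_iff_of_le hle).mp hs
  intro j
  exact this j (Finset.mem_univ j)

/-- An odd multiple of the weight that is `1` on two pentagons and `2` on a perfect matching is
not a sum of even edge sets. -/
lemma no_odd {m : ℕ} (b : Fin m → Fin 15 → ℕ) (hb : ∀ j k, b j k ≤ 1)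
    (hp : ∀ j v, Even (b j (q1 v) + b j (q2 v) + b j (q3 v))) (c : ℕ) (hc : Odd c)
    (h0 : ∑ j, b j 0 = c) (h1 : ∑ j, b j 1 = 2 * c) (h2 : ∑ j, b j 2 = c) (h3 : ∑ j, b j 3 = c)
    (h4 : ∑ j, b j 4 = 2 * c) (h5 : ∑ j, b j 5 = c) (h6 : ∑ j, b j 6 = c) (h7 : ∑ j, b j 7 = c)
    (h8 : ∑ j, b j 8 = 2 * c) (h9 : ∑ j, b j 9 = 2 * c) (h10 : ∑ j, b j 10 = c)
    (h11 : ∑ j, b j 11 = c) (h12 : ∑ j, b j 12 = c) (h13 : ∑ j, b j 13 = c)
    (h14 : ∑ j, b j 14 = 2 * c) : False := by
  have e0 := tight (fun j => b j 0) (fun j => b j 2) (fun j => b j 1) (fun j => hb j 1)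
    (fun j => by have : Even (b j 0 + b j 1 + b j 2) := hp j 0
                 rwa [add_right_comm] at this) (by rw [h0, h1, h2]; ring)
  have e1 := tight (fun j => b j 0) (fun j => b j 3) (fun j => b j 4) (fun j => hb j 4)
    (fun j => hp j 1) (by rw [h0, h3, h4]; ring)
  have e2 := tight (fun j => b j 5) (fun j => b j 6) (fun j => b j 1) (fun j => hb j 1)
    (fun j => by have : Even (b j 1 + b j 5 + b j 6) := hp j 2
                 rwa [add_rotate] at this) (by rw [h1, h5, h6]; ring)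
  have e3 := tight (fun j => b j 2) (fun j => b j 7) (fun j => b j 8) (fun j => hb j 8)
    (fun j => hp j 3) (by rw [h2, h7, h8]; ring)
  have e4 := tight (fun j => b j 3) (fun j => b j 10) (fun j => b j 9) (fun j => hb j 9)
    (fun j => by have : Even (b j 3 + b j 9 + b j 10) := hp j 4
                 rwa [add_right_comm] at this) (by rw [h3, h10, h9]; ring)
  have e5 := tight (fun j => b j 11) (fun j => b j 12) (fun j => b j 4) (fun j => hb j 4)
    (fun j => by have : Even (b j 4 + b j 11 + b j 12) := hp j 5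
                 rwa [add_rotate] at this) (by rw [h11, h12, h4]; ring)
  have e6 := tight (fun j => b j 5) (fun j => b j 13) (fun j => b j 9) (fun j => hb j 9)
    (fun j => by have : Even (b j 5 + b j 9 + b j 13) := hp j 6
                 rwa [add_right_comm] at this) (by rw [h5, h13, h9]; ring)
  have e7 := tight (fun j => b j 6) (fun j => b j 11) (fun j => b j 14) (fun j => hb j 14)
    (fun j => hp j 7) (by rw [h6, h11, h14]; ring)
  have e8 := tight (fun j => b j 7) (fun j => b j 10) (fun j => b j 14) (fun j => hb j 14)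
    (fun j => hp j 8) (by rw [h7, h10, h14]; ring)
  have e9 := tight (fun j => b j 12) (fun j => b j 13) (fun j => b j 8) (fun j => hb j 8)
    (fun j => by have : Even (b j 8 + b j 12 + b j 13) := hp j 9
                 rwa [add_rotate] at this) (by rw [h12, h13, h8]; ring)
  have hev : ∀ j, (2 : ℕ) ∣ (b j 4 + b j 6 + b j 9) := by
    intro j
    have f0 := e0 j
    have f1 := e1 j
    have f2 := e2 j
    have f3 := e3 j
    have f4 := e4 j
    have f5 := e5 j
    have f6 := e6 j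
    have f7 := e7 j
    have f8 := e8 j
    have f9 := e9 j
    have g := hb j
    have g0 := g 0
    have g1 := g 1
    have g4 := g 4
    have g8 := g 8
    have g9 := g 9
    have g11 := g 11
    have g12 := g 12
    have g13 := g 13
    have g14 := g 14
    rcases Nat.le_one_iff_eq_zero_or_eq_one.mp g11 with k11 | k11 <;>
    rcases Nat.le_one_iff_eq_zero_or_eq_one.mp g12 with k12 | k12 <;>
    rcases Nat.le_one_iff_eq_zero_or_eq_one.mp g13 with k13 | k13 <;>
    rcases Nat.le_one_iff_eq_zero_or_eq_one.mp g14 with k14 | k14 <;>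
    omega
  have h : (2 : ℕ) ∣ ∑ j, (b j 4 + b j 6 + b j 9) := Finset.dvd_sum (fun j _ => hev j)
  rw [Finset.sum_add_distrib, Finset.sum_add_distrib, h4, h6, h9] at h
  obtain ⟨r, hr⟩ := hc
  omega


lemma sum_adj (c : ℕ) (v : Fin 10) (inst : ∀ u, Decidable (Gr.Adj v u)) :
    (∑ u : Fin 10, @ite ℕ (Gr.Adj v u) (inst u) (c * wt s(v, u)) 0) =
      c * ∑ u : Fin 10, bs v u := by
  rw [Finset.mul_sum]
  apply Finset.sum_congr rfl
  intro u _
  by_cases hu : bs v u = 0
  · have h : ¬ Gr.Adj v u := fun hh => hh hu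
    rw [if_neg h, hu, mul_zero]
  · have h : Gr.Adj v u := hu
    rw [if_pos h]
    rfl

lemma sum_even : ∀ v : Fin 10, (∑ u : Fin 10, bs v u) % 2 = 0 := by decide +kernel

lemma eulerian (c : ℕ) : Eulerian Gr (fun e => c * wt e) := by
  intro v
  rw [sum_adj]
  exact (Nat.even_iff.mpr (sum_even v)).mul_left c

lemma sum_cut (c : ℕ) (S : Finset (Fin 10))
    (inst : ∀ u v : Fin 10, Decidable (u ∈ S ∧ v ∉ S ∧ Gr.Adj u v)) :
    (∑ u : Fin 10, ∑ v : Fin 10,
      @ite ℕ (u ∈ S ∧ v ∉ S ∧ Gr.Adj u v) (inst u v) (c * wt s(u, v)) 0)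
      = c * cw (fun u => decide (u ∈ S)) := by
  unfold cw
  rw [Finset.mul_sum]
  apply Finset.sum_congr rfl
  intro u _
  rw [Finset.mul_sum]
  apply Finset.sum_congr rfl
  intro v _
  by_cases h1 : u ∈ S
  · by_cases h2 : v ∈ S
    · simp [h1, h2]
    · by_cases h3 : bs u v = 0
      · have h4 : ¬ Gr.Adj u v := fun hh => hh h3
        simp [h1, h2, h3, h4]
      · have h4 : Gr.Adj u v := h3
        simp [h1, h2, h4, wt_mk]
  · simp [h1]

lemma admissible (c : ℕ) : Admissible Gr (fun e => c * wt e) := by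
  intro S a b ha hb hab
  refine le_of_le_of_eq ?_ (sum_cut c S _).symm
  show 2 * (c * wt s(a, b)) ≤ _
  rw [wt_mk]
  have h1 := (cw_ge' (fun u => decide (u ∈ S)) a b (by simpa using ha) (by simpa using hb)).1
  have h2 : bs a b ≤ 2 := by
    rcases bs_val a b hab with h | h <;> omega
  calc 2 * (c * bs a b) = c * (2 * bs a b) := by ring
    _ ≤ c * cw (fun u => decide (u ∈ S)) := Nat.mul_le_mul_left c (by omega)

lemma sum_ind {n : ℕ} (x : Fin n → Fin 10) (p : ∀ i, Gr.Walk (x i) (x i)) (k : Fin 15)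
    (inst : ∀ i, Decidable (s(pa k, pb k) ∈ (p i).edges)) :
    ∑ i, ind (p i) k = ∑ i : Fin n, @ite ℕ (s(pa k, pb k) ∈ (p i).edges) (inst i) 1 0 := by
  apply Finset.sum_congr rfl
  intro i _
  unfold ind ek
  by_cases h : s(pa k, pb k) ∈ (p i).edges
  · rw [if_pos h, if_pos h]
  · rw [if_neg h, if_neg h]

lemma ek_adj : ∀ k : Fin 15, bs (pa k) (pb k) ≠ 0 := by decide +kernel

lemma ek_wt : ∀ k : Fin 15, bs (pa k) (pb k) =
    (![1, 2, 1, 1, 2, 1, 1, 1, 2, 2, 1, 1, 1, 1, 2] : Fin 15 → ℕ) k := by decide +kernel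

lemma no_cover (c : ℕ) (hc : Odd c) : ¬ FaithfulCover Gr (fun e => c * wt e) := by
  rintro ⟨n, x, p, hcyc, hcov⟩
  have hs : ∀ k : Fin 15, ∑ i, ind (p i) k =
      c * (![1, 2, 1, 1, 2, 1, 1, 1, 2, 2, 1, 1, 1, 1, 2] : Fin 15 → ℕ) k := by
    intro k
    have h := hcov (pa k) (pb k) (ek_adj k)
    simp only [wt_mk, ek_wt] at h
    rw [← h]
    exact sum_ind x p k _
  have e1 : ∀ k : Fin 15, (![1, 2, 1, 1, 2, 1, 1, 1, 2, 2, 1, 1, 1, 1, 2] : Fin 15 → ℕ) k = 1 →
      ∑ i, ind (p i) k = c := by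
    intro k hk
    rw [hs, hk, mul_one]
  have e2 : ∀ k : Fin 15, (![1, 2, 1, 1, 2, 1, 1, 1, 2, 2, 1, 1, 1, 1, 2] : Fin 15 → ℕ) k = 2 →
      ∑ i, ind (p i) k = 2 * c := by
    intro k hk
    rw [hs, hk, mul_comm]
  exact no_odd (fun i k => ind (p i) k) (fun i k => ind_le _ _)
    (fun i v => ind_even (p i) (hcyc i) v) c hc
    (e1 0 rfl) (e2 1 rfl) (e1 2 rfl) (e1 3 rfl) (e2 4 rfl) (e1 5 rfl) (e1 6 rfl) (e1 7 rfl)
    (e2 8 rfl) (e2 9 rfl) (e1 10 rfl) (e1 11 rfl) (e1 12 rfl) (e1 13 rfl) (e2 14 rfl)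

/-! ### The even multiples -/

/-- five circuits of length eight -/
def cy (t : Fin 5) (i : Fin 8) : Fin 10 :=
  (![![3, 8, 7, 2, 0, 1, 5, 9], ![1, 0, 2, 6, 4, 8, 7, 5], ![5, 1, 4, 6, 2, 0, 3, 9],
    ![3, 0, 2, 7, 8, 4, 6, 9], ![5, 7, 8, 3, 9, 6, 4, 1]] : Fin 5 → Fin 8 → Fin 10) t i

lemma cy_adj : ∀ (t : Fin 5) (i : Fin 8), bs (cy t i) (cy t (i + 1)) ≠ 0 := by decide +kernel

/-- the circuits as walks -/
def wk (t : Fin 5) : Gr.Walk (cy t 0) (cy t 0) :=
  .cons (cy_adj t 0) <| .cons (cy_adj t 1) <| .cons (cy_adj t 2) <| .cons (cy_adj t 3) <|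
  .cons (cy_adj t 4) <| .cons (cy_adj t 5) <| .cons (cy_adj t 6) <| .cons (cy_adj t 7) .nil

lemma wk_edges (t : Fin 5) : (wk t).edges = [s(cy t 0, cy t 1), s(cy t 1, cy t 2),
    s(cy t 2, cy t 3), s(cy t 3, cy t 4), s(cy t 4, cy t 5), s(cy t 5, cy t 6),
    s(cy t 6, cy t 7), s(cy t 7, cy t 0)] := rfl

lemma wk_support (t : Fin 5) : (wk t).support.tail = [cy t 1, cy t 2, cy t 3, cy t 4, cy t 5,
    cy t 6, cy t 7, cy t 0] := rfl

lemma wk_nodup : ∀ t : Fin 5, [s(cy t 0, cy t 1), s(cy t 1, cy t 2),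
    s(cy t 2, cy t 3), s(cy t 3, cy t 4), s(cy t 4, cy t 5), s(cy t 5, cy t 6),
    s(cy t 6, cy t 7), s(cy t 7, cy t 0)].Nodup ∧ [cy t 1, cy t 2, cy t 3, cy t 4, cy t 5,
    cy t 6, cy t 7, cy t 0].Nodup := by decide +kernel

lemma wk_cycle (t : Fin 5) : (wk t).IsCycle := by
  rw [SimpleGraph.Walk.isCycle_def]
  refine ⟨⟨?_⟩, ?_, ?_⟩
  · rw [wk_edges]
    exact (wk_nodup t).1
  · intro h
    have h8 : (wk t).length = 8 := rfl
    rw [h] at h8
    simp at h8
  · rw [wk_support]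
    exact (wk_nodup t).2

lemma wk_count : ∀ a b : Fin 10, bs a b ≠ 0 → (∑ t : Fin 5, if s(a, b) ∈ [s(cy t 0, cy t 1),
    s(cy t 1, cy t 2), s(cy t 2, cy t 3), s(cy t 3, cy t 4), s(cy t 4, cy t 5),
    s(cy t 5, cy t 6), s(cy t 6, cy t 7), s(cy t 7, cy t 0)] then 1 else 0) = 2 * bs a b := by
  decide +kernel

lemma cover (c : ℕ) (hc : Even c) : FaithfulCover Gr (fun e => c * wt e) := by
  classical
  obtain ⟨k, hk⟩ := hc
  let e : Fin (k * 5) ≃ Fin k × Fin 5 := finProdFinEquiv.symm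
  refine ⟨k * 5, fun i => cy (e i).2 0, fun i => wk (e i).2, fun i => wk_cycle _, ?_⟩
  intro a b hab
  have h1 : (∑ i : Fin (k * 5), if s(a, b) ∈ (wk (e i).2).edges then 1 else 0) =
      ∑ q : Fin k × Fin 5, if s(a, b) ∈ (wk q.2).edges then 1 else 0 :=
    Equiv.sum_comp e (fun q : Fin k × Fin 5 => if s(a, b) ∈ (wk q.2).edges then 1 else 0)
  have h2 : (∑ t : Fin 5, if s(a, b) ∈ (wk t).edges then 1 else 0) = 2 * bs a b := by
    rw [← wk_count a b hab]
    apply Finset.sum_congr rfl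
    intro t _
    rw [wk_edges]
  show _ = c * wt s(a, b)
  rw [wt_mk, hk]
  calc _ = (∑ i : Fin (k * 5), if s(a, b) ∈ (wk (e i).2).edges then 1 else 0) := by
        apply Finset.sum_congr rfl
        intro i _
        by_cases h : s(a, b) ∈ (wk (e i).2).edges
        · rw [if_pos h, if_pos h]
        · rw [if_neg h, if_neg h]
    _ = _ := h1
    _ = k * (2 * bs a b) := by
        rw [Fintype.sum_prod_type, Finset.sum_congr rfl (fun _ _ => h2), Finset.sum_const,
          Finset.card_univ, Fintype.card_fin, smul_eq_mul]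
    _ = (k + k) * bs a b := by ring

lemma cover_iff (c : ℕ) : FaithfulCover Gr (fun e => c * wt e) ↔ Even c := by
  constructor
  · intro h
    by_contra hc
    exact no_cover c (Nat.not_even_iff_odd.1 hc) h
  · exact cover c

open scoped Classical in
lemma three_edges (S : Finset (Fin 10)) (hS : S.Nonempty) (hS' : Sᶜ.Nonempty) :
    3 ≤ (Finset.univ.filter fun q : Fin 10 × Fin 10 => q.1 ∈ S ∧ q.2 ∉ S ∧ Gr.Adj q.1 q.2).card := by
  obtain ⟨a, ha⟩ := hS
  obtain ⟨b, hb⟩ := hS'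
  have h1 := (cw_ge' (fun u => decide (u ∈ S)) a b (by simpa using ha)
    (by simpa using Finset.mem_compl.1 hb)).2
  refine h1.trans (le_of_eq ?_)
  rw [Finset.card_filter, Fintype.sum_prod_type]
  unfold ce
  apply Finset.sum_congr rfl
  intro u _
  apply Finset.sum_congr rfl
  intro v _
  by_cases h1 : u ∈ S <;> by_cases h2 : v ∈ S <;> by_cases h3 : bs u v = 0 <;>
    simp [h1, h2, h3, adj_iff]

end Pool.Agent.Y825.GC
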